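import Pool.Agent.H257.BG.All

/-!
# Bounded generation: an isomorphism of `L(PSL_n(ℤ))` that is group-like at one element is group-like

Let `Γ` be an icc group, `A` a subset of `Γ`, and suppose that `Γ` is the product of finitely many
conjugates `g_i A g_i⁻¹` of `A` (`BoundedlyGenerated`).  For EVERY group `Λ` and every trace preserving
`*`-isomorphism `θ : L(Γ) → L(Λ)`:

1. if the unitaries `θ(u_a)`, `a ∈ A`, are uniformly close to combinations of few group elements
   (`FewTerms`: for all `η > 0` there is an `m` such that for all `a ∈ A` the mass of the Fourier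
   coefficients of `θ(u_a)` outside of a suitable set of `m` elements of `Λ` is at most `η`), then
   `θ` is group-like: `θ(u_g) = χ(g) w u_{φ(g)} w*` for an isomorphism of groups `φ : Γ → Λ`, a
   character `χ` and a unitary `w ∈ L(Λ)`;
2. this is the case if there is a unitary `w ∈ L(Λ)` such that every `θ(u_a)`, `a ∈ A`, is a multiple
   of some `w u_h w*`;
3. in particular it is the case if `A` consists of the powers of one element `a` and, for some `k ≥ 1`,
   the single unitary `θ(u_{a^k})` is conjugate, by a unitary of `L(Λ)`, to a multiple of a group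
   element;
4. for `n ≥ 3` the group `Γ = PSL_n(ℤ)` (`SL_n(ℤ)` if `n` is odd) is icc, and it is the product of
   finitely many conjugates of the set of the powers of the class of the elementary matrix
   `e = 1 + E_12` (the theorem of Carter and Keller on bounded elementary generation, which is
   proved here, also for `SL_n(ℤ)`).

So if `L(PSL_n(ℤ)) ≅ L(Λ)`, `n ≥ 3`, by an isomorphism that maps ONE of the unitaries `u_{e^k}`, `k ≥ 1`,
to a multiple of a unitary conjugate of some `u_h`, `h ∈ Λ`, then `Λ ≅ PSL_n(ℤ)`; if `Λ` is a lattice in a simple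
Lie group `G₂` as in the problem, then `G₂ ≅ PSL_n(ℝ)` (Mostow, Margulis).  Nothing is assumed about the
images of the other elements, and no property (T) is used.  The same follows for the other groups
for which bounded elementary generation is known (Chevalley groups, Tavgen).

As usual `ℓ²(G)` is a Hilbert space `H` with an orthonormal basis `(δ_g)` indexed by `G`, and
`L(G)` is the commutant of the right translations, i.e. the algebra of the bounded operators `T`
for which `⟨δ_{tg}, T δ_{sg}⟩ = ⟨δ_t, T δ_s⟩`.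

Proof.  If `x`, `y` run through sets of unitaries of `L(Λ)` which are uniformly close to
combinations of few group elements, so do the products `x y` (approximate `x` first, then `y` with
an error that is small compared with the operator norms of the approximations of the `x`).  So all
`θ(u_g)`, `g ∈ Γ`, are of this kind, and `∑_h |θ(u_g)(h)|⁴` is bounded below on `Γ`.  This is a
coefficient of the representation of `Γ` on `ℓ²(Λ⁴ / Λ)` in the proof of `HeightDecay` (this
problem), which therefore has a nonzero invariant vector (the element of minimal norm of a closed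
convex hull), and the second half of that proof applies; see also the theorem of Ioana, Popa and
Vaes on groups of unitaries with height bounded below.

Plan, statements and assembly by helper257; leaves by helpers 81, 130, 286, 356, 448, 591, 656, 772, 799, 826, 864, 878, 939 and 965 (and those of projects HD and TW, see
`HeightDecay` and `UniformSeparation`).  The conversion lemmas are those of the library result
`LocalRigidity`.
-/

set_option autoImplicit false

namespace Pool.Agent.Results.MP_0f6f3f_an.BoundedGeneration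

open Pool.Agent.H494R3.GT Pool.Agent.N557.QW

/-- `G` is icc: every `g ≠ 1` has infinitely many conjugates -/
def Icc (G : Type) [Group G] : Prop := ∀ g : G, g ≠ 1 → {x : G | ∃ k : G, k * g * k⁻¹ = x}.Infinite

/-- the bounded operators of a Hilbert space -/
abbrev Op (H : Type) [NormedAddCommGroup H] [InnerProductSpace ℂ H] : Type := H →L[ℂ] H

/-- every element of `G` is a product `(g_1 a_1 g_1⁻¹) ⋯ (g_N a_N g_N⁻¹)` with `a_i ∈ A`, for fixed
`g_1, …, g_N` -/
def BoundedlyGenerated {G : Type} [Group G] (A : Set G) : Prop :=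
  ∃ (N : ℕ) (g : Fin N → G), ∀ x : G, ∃ a : Fin N → G, (∀ i, a i ∈ A) ∧
    x = (List.ofFn fun i => g i * a i * (g i)⁻¹).prod

section
variable {G H : Type} [Group G] [NormedAddCommGroup H] [InnerProductSpace ℂ H]

/-- `T` belongs to the group von Neumann algebra `L(G)`: it commutes with the right
translations. -/
def InL (δ : HilbertBasis G ℂ H) (T : Op H) : Prop :=
  ∀ g s t : G, inner ℂ (δ (t * g)) (T (δ (s * g))) = inner ℂ (δ t) (T (δ s))

/-- the Fourier coefficient of `T` at `g`; at `g = 1` this is the trace of `T ∈ L(G)` -/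
noncomputable def coef (δ : HilbertBasis G ℂ H) (T : Op H) (g : G) : ℂ :=
  inner ℂ (δ g) (T (δ 1))

/-- `T` is the canonical unitary `u_g`, the left translation by `g` -/
def IsU (δ : HilbertBasis G ℂ H) (g : G) (T : Op H) : Prop := ∀ s, T (δ s) = δ (g * s)

end

section
variable {G G' H K : Type} [Group G] [Group G'] [NormedAddCommGroup H] [InnerProductSpace ℂ H]
  [CompleteSpace H] [NormedAddCommGroup K] [InnerProductSpace ℂ K] [CompleteSpace K]
  (δ : HilbertBasis G ℂ H) (ε : HilbertBasis G' ℂ K) (θ : Op H → Op K)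

/-- `θ` maps `L(G)` bijectively onto `L(G')` (values outside `L(G)` are irrelevant) -/
def Bij : Prop :=
  (∀ T, InL δ T → InL ε (θ T)) ∧ (∀ T, InL ε T → ∃ S, InL δ S ∧ θ S = T) ∧
    ∀ T S, InL δ T → InL δ S → θ T = θ S → T = S

omit [Group G'] [CompleteSpace H] [CompleteSpace K] in
/-- `θ` is additive on `L(G)` -/
def Add : Prop := ∀ T S, InL δ T → InL δ S → θ (T + S) = θ T + θ S

omit [Group G'] [CompleteSpace H] [CompleteSpace K] in
/-- `θ` is homogeneous on `L(G)` -/
def Hom : Prop := ∀ (c : ℂ) (T : Op H), InL δ T → θ (c • T) = c • θ T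

omit [Group G'] [CompleteSpace H] [CompleteSpace K] in
/-- `θ` is multiplicative on `L(G)` -/
def Mul : Prop := ∀ T S, InL δ T → InL δ S → θ (T * S) = θ T * θ S

omit [Group G'] in
/-- `θ` preserves adjoints on `L(G)` -/
def Sta : Prop := ∀ T, InL δ T → θ (star T) = star (θ T)

/-- `θ` is a `*`-isomorphism of `L(G)` onto `L(G')` which preserves the trace -/
def IsTraceIso : Prop :=
  Bij δ ε θ ∧ Add δ θ ∧ Hom δ θ ∧ Mul δ θ ∧ Sta δ θ ∧
    ∀ T, InL δ T → coef ε (θ T) 1 = coef δ T 1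

/-- `w` is a unitary of `L(G')` -/
def IsUnitary (w : Op K) : Prop := InL ε w ∧ star w * w = 1 ∧ w * star w = 1

omit [Group G] [CompleteSpace H] [CompleteSpace K] in
/-- the `θ(u_a)`, `a ∈ A`, are uniformly close to combinations of few group elements: for every
`η > 0` there is an `m` such that for each `a ∈ A` there is a set `F` of at most `m` elements of `G'`
with `1 - ∑_{h ∈ F} |θ(u_a)(h)|² ≤ η` -/
def FewTerms (u : G → Op H) (A : Set G) : Prop :=
  ∀ η : ℝ, 0 < η → ∃ m : ℕ, ∀ a ∈ A, ∃ F : Finset G', F.card ≤ m ∧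
    1 - ∑ h ∈ F, ‖coef ε (θ (u a)) h‖ ^ 2 ≤ η

/-- `θ` is group-like: `θ(u_g) = χ(g) w u_{φ(g)} w*` for an isomorphism of groups `φ : G → G'`, a
character `χ` of `G` and a unitary `w` of `L(G')` -/
def IsGroupLike : Prop :=
  ∃ (φ : G ≃* G') (χ : G →* ℂ) (w : Op K), (∀ g, ‖χ g‖ = 1) ∧ IsUnitary ε w ∧
    ∀ (g : G) (T : Op H) (U : Op K), IsU δ g T → IsU ε (φ g) U → θ T = χ g • (w * U * star w)

end

lemma repr_dl {G H : Type} [NormedAddCommGroup H] [InnerProductSpace ℂ H]
    (δ : HilbertBasis G ℂ H) (g : G) : δ.repr (δ g) = dl g := by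
  classical
  rw [HilbertBasis.repr_self, dl]

lemma repr_symm_dl {G H : Type} [NormedAddCommGroup H] [InnerProductSpace ℂ H]
    (δ : HilbertBasis G ℂ H) (g : G) : δ.repr.symm (dl g) = δ g := by
  rw [← repr_dl δ, LinearIsometryEquiv.symm_apply_apply]

section
variable {G H : Type} [Group G] [NormedAddCommGroup H] [InnerProductSpace ℂ H]
  [CompleteSpace H]

/-- conjugation with `H ≃ ℓ²(G)` -/
noncomputable def cj (δ : HilbertBasis G ℂ H) : (H →L[ℂ] H) ≃⋆ₐ[ℂ] (L2 G →L[ℂ] L2 G) :=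
  δ.repr.conjStarAlgEquiv

omit [Group G] in
lemma cj_star (δ : HilbertBasis G ℂ H) (T : H →L[ℂ] H) : cj δ (star T) = star (cj δ T) :=
  (cj δ).map_star' T

omit [Group G] in
lemma cj_inner (δ : HilbertBasis G ℂ H) (T : H →L[ℂ] H) (s t : G) :
    inner ℂ (dl t) (cj δ T (dl s)) = inner ℂ (δ t) (T (δ s)) := by
  rw [cj, LinearIsometryEquiv.conjStarAlgEquiv_apply_apply, repr_symm_dl, ← repr_dl δ,
    LinearIsometryEquiv.inner_map_map]

lemma cf_cj (δ : HilbertBasis G ℂ H) (T : H →L[ℂ] H) (g : G) :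
    cf (cj δ T) g = coef δ T g := cj_inner δ T 1 g

lemma inL_iff (δ : HilbertBasis G ℂ H) (T : H →L[ℂ] H) : InL δ T ↔ cj δ T ∈ LG G := by
  rw [mem_LG_iff]
  constructor
  · intro h s t
    rw [cj_inner, cf_cj, coef]
    have := h s 1 (t * s⁻¹)
    rw [inv_mul_cancel_right, one_mul] at this
    exact this
  · intro h g s t
    rw [← cj_inner, ← cj_inner, h, h]
    congr 1
    group

lemma isU_iff (δ : HilbertBasis G ℂ H) (g : G) (T : H →L[ℂ] H) :
    IsU δ g T ↔ cj δ T = lam g := by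
  constructor
  · intro h
    refine op_ext fun s => ?_
    rw [lam_dl, cj, LinearIsometryEquiv.conjStarAlgEquiv_apply_apply, repr_symm_dl, h s, repr_dl]
  · intro h s
    have := congrArg (fun A : L2 G →L[ℂ] L2 G => A (dl s)) h
    simp only [lam_dl] at this
    rw [cj, LinearIsometryEquiv.conjStarAlgEquiv_apply_apply, repr_symm_dl, ← repr_dl δ] at this
    exact δ.repr.injective this

end

section conv
variable {Γ Λ H K : Type} [Group Γ] [Group Λ] [NormedAddCommGroup H] [InnerProductSpace ℂ H]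
  [CompleteSpace H] [NormedAddCommGroup K] [InnerProductSpace ℂ K] [CompleteSpace K]

/-- the isomorphism in the standard form -/
lemma conv (δ : HilbertBasis Γ ℂ H) (ε : HilbertBasis Λ ℂ K) (θ : Op H → Op K)
    (hθ : IsTraceIso δ ε θ) :
    ∃ e : (LG Γ).toStarSubalgebra ≃⋆ₐ[ℂ] (LG Λ).toStarSubalgebra,
      (∀ x, (e x : L2 Λ →L[ℂ] L2 Λ) = cj ε (θ ((cj δ).symm x))) ∧
      ∀ x, cf (e x : L2 Λ →L[ℂ] L2 Λ) 1 = cf (x : L2 Γ →L[ℂ] L2 Γ) 1 := by
  obtain ⟨⟨hmaps, honto, hinj⟩, hadd, hhom, hmul, hsta, htr⟩ := hθ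
  have hin : ∀ x : (LG Γ).toStarSubalgebra, InL δ ((cj δ).symm x) := fun x => by
    rw [inL_iff, StarAlgEquiv.apply_symm_apply]; exact x.2
  let f : (LG Γ).toStarSubalgebra → (LG Λ).toStarSubalgebra := fun x =>
    ⟨cj ε (θ ((cj δ).symm x)), (inL_iff ε _).1 (hmaps _ (hin x))⟩
  have hbij : Function.Bijective f := by
    constructor
    · intro x y hxy
      have h1 := congrArg Subtype.val hxy
      have h2 := hinj _ _ (hin x) (hin y) ((cj ε).injective h1)
      exact Subtype.ext ((cj δ).symm.injective h2)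
    · intro y
      obtain ⟨T, hT, hTy⟩ := honto ((cj ε).symm y)
        (by rw [inL_iff, StarAlgEquiv.apply_symm_apply]; exact y.2)
      refine ⟨⟨cj δ T, (inL_iff δ T).1 hT⟩, Subtype.ext ?_⟩
      change cj ε (θ ((cj δ).symm (cj δ T))) = y
      rw [StarAlgEquiv.symm_apply_apply, hTy, StarAlgEquiv.apply_symm_apply]
  let e : (LG Γ).toStarSubalgebra ≃⋆ₐ[ℂ] (LG Λ).toStarSubalgebra :=
    { Equiv.ofBijective f hbij with
      map_mul' := fun x y => Subtype.ext (by
        change cj ε (θ ((cj δ).symm ((x : Pool.Agent.N414.LR.Op Γ) * y))) = _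
        rw [map_mul, hmul _ _ (hin x) (hin y), map_mul]; rfl)
      map_add' := fun x y => Subtype.ext (by
        change cj ε (θ ((cj δ).symm ((x : Pool.Agent.N414.LR.Op Γ) + y))) = _
        rw [map_add, hadd _ _ (hin x) (hin y), map_add]; rfl)
      map_smul' := fun c x => Subtype.ext (by
        change cj ε (θ ((cj δ).symm (c • (x : Pool.Agent.N414.LR.Op Γ)))) = _
        rw [map_smul, hhom c _ (hin x), map_smul]; rfl)
      map_star' := fun x => Subtype.ext (by
        change cj ε (θ ((cj δ).symm (star (x : Pool.Agent.N414.LR.Op Γ)))) = _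
        rw [map_star, hsta _ (hin x), cj_star]; rfl) }
  have he : ∀ x, (e x : L2 Λ →L[ℂ] L2 Λ) = cj ε (θ ((cj δ).symm x)) := fun _ => rfl
  refine ⟨e, he, fun x => ?_⟩
  rw [he, cf_cj, htr _ (hin x), ← cf_cj, StarAlgEquiv.apply_symm_apply]

lemma u_eq {δ : HilbertBasis Γ ℂ H} {u : Γ → Op H} (hu : ∀ g, IsU δ g (u g)) (g : Γ) :
    u g = (cj δ).symm (lam g) := by
  rw [← (isU_iff δ g (u g)).1 (hu g), StarAlgEquiv.symm_apply_apply]

lemma coef_eq {δ : HilbertBasis Γ ℂ H} {ε : HilbertBasis Λ ℂ K} {θ : Op H → Op K} {u : Γ → Op H}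
    (hu : ∀ g, IsU δ g (u g)) {e : (LG Γ).toStarSubalgebra ≃⋆ₐ[ℂ] (LG Λ).toStarSubalgebra}
    (he : ∀ x, (e x : L2 Λ →L[ℂ] L2 Λ) = cj ε (θ ((cj δ).symm x))) (g : Γ) (h : Λ) :
    coef ε (θ (u g)) h = cf (e ⟨lam g, lam_mem g⟩ : L2 Λ →L[ℂ] L2 Λ) h := by
  rw [he, cf_cj, u_eq hu g]

lemma gl_of {δ : HilbertBasis Γ ℂ H} {ε : HilbertBasis Λ ℂ K} {θ : Op H → Op K}
    {e : (LG Γ).toStarSubalgebra ≃⋆ₐ[ℂ] (LG Λ).toStarSubalgebra}
    (he : ∀ x, (e x : L2 Λ →L[ℂ] L2 Λ) = cj ε (θ ((cj δ).symm x)))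
    (h : Pool.Agent.H257.TW.GpL e) : IsGroupLike δ ε θ := by
  obtain ⟨f, χ, w, hw, huw, hg⟩ := h
  refine ⟨f, (Submonoid.subtype _).comp χ, (cj ε).symm w, ?_, ⟨?_, ?_, ?_⟩, ?_⟩
  · intro g
    exact CStarRing.norm_of_mem_unitary (χ g).2
  · rw [inL_iff, StarAlgEquiv.apply_symm_apply]; exact hw
  · rw [← map_star, ← map_mul, (Unitary.mem_iff.1 huw).1, map_one]
  · rw [← map_star, ← map_mul, (Unitary.mem_iff.1 huw).2, map_one]
  · intro k T U hT hU
    have h3 : cj ε (θ T) = ((χ k : unitary ℂ) : ℂ) • (w * lam (f k) * star w) := by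
      rw [← hg k, he]
      change _ = cj ε (θ ((cj δ).symm (lam k)))
      rw [← (isU_iff δ k T).1 hT, StarAlgEquiv.symm_apply_apply]
    apply (cj ε).injective
    change cj ε (θ T) = cj ε (((χ k : unitary ℂ) : ℂ) • ((cj ε).symm w * U *
      star ((cj ε).symm w)))
    rw [h3, map_smul, map_mul, map_mul, cj_star, StarAlgEquiv.apply_symm_apply,
      (isU_iff ε _ U).1 hU]

end conv

/-- `e` is the elementary matrix `1 + E_12` -/
def IsE12 {n : ℕ} (e : Matrix.SpecialLinearGroup (Fin n) ℤ) : Prop :=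
  ∀ i j : Fin n, e.1 i j = if i = j then 1 else if (i : ℕ) = 0 ∧ (j : ℕ) = 1 then 1 else 0

/-- the powers of `a` -/
def Powers {G : Type} [Group G] (a : G) : Set G := {x | ∃ k : ℤ, x = a ^ k}

/-- the group `PSL_n(ℤ)`, the quotient of `SL_n(ℤ)` by its center -/
abbrev PSL (n : ℕ) : Type := Matrix.SpecialLinearGroup (Fin n) ℤ ⧸
  Subgroup.center (Matrix.SpecialLinearGroup (Fin n) ℤ)

/-- bounded generation by powers passes to quotients -/
lemma bg_quot {G Q : Type} [Group G] [Group Q] (f : G →* Q) (hf : Function.Surjective f) (e : G)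
    (h : BoundedlyGenerated (Powers e)) : BoundedlyGenerated (Powers (f e)) := by
  obtain ⟨M, g, hg⟩ := h
  refine ⟨M, fun i => f (g i), fun x => ?_⟩
  obtain ⟨y, rfl⟩ := hf x
  obtain ⟨a, ha, hy⟩ := hg y
  refine ⟨fun i => f (a i), fun i => ?_, ?_⟩
  · obtain ⟨k, hk⟩ := ha i
    exact ⟨k, by change f (a i) = _; rw [hk, map_zpow]⟩
  · have h1 := map_list_prod f (List.ofFn fun i => g i * a i * (g i)⁻¹)
    rw [← hy, List.map_ofFn] at h1
    rw [h1]
    congr 2
    funext i
    simp [Function.comp]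

/-- **Bounded generation.** -/
theorem result :
    (∀ (Γ : Type) [Group Γ] (A : Set Γ), Icc Γ → BoundedlyGenerated A →
      ∀ (Λ H K : Type) [Group Λ] [NormedAddCommGroup H] [InnerProductSpace ℂ H] [CompleteSpace H]
      [NormedAddCommGroup K] [InnerProductSpace ℂ K] [CompleteSpace K] (δ : HilbertBasis Γ ℂ H)
      (ε : HilbertBasis Λ ℂ K) (θ : Op H → Op K) (u : Γ → Op H), (∀ g, IsU δ g (u g)) →
      IsTraceIso δ ε θ →
      (FewTerms ε θ u A → IsGroupLike δ ε θ) ∧
      (∀ w : Op K, IsUnitary ε w →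
        (∀ a ∈ A, ∃ (c : ℂ) (h : Λ) (U : Op K), IsU ε h U ∧ θ (u a) = c • (w * U * star w)) →
        IsGroupLike δ ε θ) ∧
      ∀ (a : Γ) (k : ℕ) (h : Λ) (c : ℂ) (w U : Op K), A = Powers a → 0 < k →
        IsUnitary ε w → IsU ε h U → θ (u (a ^ k)) = c • (w * U * star w) → IsGroupLike δ ε θ) ∧
    ∀ (n : ℕ) (e : Matrix.SpecialLinearGroup (Fin n) ℤ), 3 ≤ n → IsE12 e →
      (Odd n → Icc (Matrix.SpecialLinearGroup (Fin n) ℤ)) ∧ BoundedlyGenerated (Powers e) ∧
      Icc (PSL n) ∧ BoundedlyGenerated (Powers (e : PSL n)) := by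
  classical
  have hmain : ∀ (n : ℕ) (e : Matrix.SpecialLinearGroup (Fin n) ℤ), 3 ≤ n → IsE12 e →
      BoundedlyGenerated (Powers e) := by
    intro n e hn he
    obtain ⟨a, ha, hb⟩ := Pool.Agent.H257.BG.FCN.main (Pool.Agent.H257.BG.CMBb.main
      Pool.Agent.H257.BG.ROW.main (Pool.Agent.H257.BG.PWR.main Pool.Agent.H257.BG.MEN.main
      Pool.Agent.H257.BG.ROW.main) Pool.Agent.H257.BG.DIR.main) Pool.Agent.H257.BG.BGN.main n hn
    have h1 : e = a := by
      apply Subtype.ext
      ext i j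
      rw [he i j, ha i j]
    rw [h1]
    exact hb
  refine ⟨?_, fun n e hn he => ⟨fun hodd => Pool.Agent.H257.BG.ICN.main n hn hodd,
    hmain n e hn he, Pool.Agent.H257.BG.PSL.main n hn,
    bg_quot (QuotientGroup.mk' _) (QuotientGroup.mk'_surjective _) e (hmain n e hn he)⟩⟩
  intro Γ _ A hicc hA Λ H K _ _ _ _ _ _ _ δ ε θ u hu hθ
  obtain ⟨N, g, hgen⟩ := hA
  obtain ⟨e, he, het⟩ := conv δ ε θ hθ
  have main := fun hUA => gl_of he (Pool.Agent.H257.BG.main Pool.Agent.H257.BG.PRD.main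
    Pool.Agent.H257.BG.INV.main Pool.Agent.H257.BG.SNG.main Pool.Agent.H257.BG.LOW.main Γ Λ hicc
    e het A N g hgen hUA)
  obtain ⟨v, hve, hv, htr, hd⟩ := Pool.Agent.N414.LR.END.t_den Γ Λ e het
  have hwu : ∀ w : Op K, IsUnitary ε w → cj ε w ∈ unitary (L2 Λ →L[ℂ] L2 Λ) := by
    intro w hw
    rw [Unitary.mem_iff, ← cj_star, ← map_mul, ← map_mul, hw.2.1, hw.2.2, map_one]
    exact ⟨rfl, rfl⟩
  have hva : ∀ (a : Γ) (h : Λ) (c : ℂ) (w U : Op K), IsU ε h U →
      θ (u a) = c • (w * U * star w) →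
      (v a : L2 Λ →L[ℂ] L2 Λ) = c • (cj ε w * lam h * star (cj ε w)) := by
    intro a h c w U hU hθa
    rw [hve, he]
    change cj ε (θ ((cj δ).symm (lam a))) = _
    rw [← u_eq hu a, hθa, map_smul, map_mul, map_mul, cj_star, (isU_iff ε h U).1 hU]
  have hc : ∀ (a : Γ) (h : Λ) (c : ℂ) (w : Op K), IsUnitary ε w →
      (v a : L2 Λ →L[ℂ] L2 Λ) = c • (cj ε w * lam h * star (cj ε w)) → ‖c‖ = 1 := by
    intro a h c w hw hva
    have h1 : ‖(v a : L2 Λ →L[ℂ] L2 Λ) (cj ε w (dl 1))‖ = ‖(cj ε w (dl 1) : L2 Λ)‖ :=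
      Pool.Agent.N414.LR.CLS.norm_v v a _
    have h2 : star (cj ε w) (cj ε w (dl (1 : Λ))) = (dl 1 : L2 Λ) := by
      have := congrArg (fun z : L2 Λ →L[ℂ] L2 Λ => z (dl (1 : Λ)))
        (Unitary.mem_iff.1 (hwu w hw)).1
      simpa using this
    have hn : ∀ x : L2 Λ, ‖cj ε w x‖ = ‖x‖ := fun x =>
      Pool.Agent.N414.LR.Asm.norm_unit ⟨cj ε w, hwu w hw⟩ x
    have hd1 : ∀ t : Λ, ‖(dl t : L2 Λ)‖ = 1 := fun t =>
      (dl_orthonormal (P := Λ) (f := fun g => g) Function.injective_id).1 t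
    rw [hva] at h1
    have h3 : (c • (cj ε w * lam h * star (cj ε w))) (cj ε w (dl (1 : Λ))) =
        c • (cj ε w (dl (h * 1))) := by
      change c • (cj ε w (lam h (star (cj ε w) (cj ε w (dl (1 : Λ)))))) = _
      rw [h2, lam_dl]
    rw [h3, norm_smul, hn, hn, hd1, hd1, mul_one] at h1
    exact h1
  refine ⟨fun hF => main ?_, ?_, ?_⟩
  · intro η hη
    obtain ⟨m, hm⟩ := hF η hη
    refine ⟨m, ?_⟩
    rintro x ⟨a, ha, rfl⟩
    obtain ⟨F, hFm, hF⟩ := hm a ha
    refine ⟨F, hFm, le_trans (le_of_eq ?_) hF⟩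
    simp only [coef_eq hu he]
  · intro w hw hall
    apply main
    refine (Pool.Agent.H257.BG.ua_conj Pool.Agent.H257.BG.PRD.main Pool.Agent.H257.BG.SNG.main Λ
      (cj ε w) ((inL_iff ε w).1 hw.1) (hwu w hw)).mono ?_
    rintro x ⟨a, ha, rfl⟩
    obtain ⟨c, h, U, hU, hθa⟩ := hall a ha
    have h1 := hva a h c w U hU hθa
    exact ⟨c, h, hc a h c w hw h1, by rw [← hve, h1]⟩
  · intro a k h c w U hAa hk hw hU hθa
    apply main
    have h1 := hva (a ^ k) h c w U hU hθa
    have h4 := Pool.Agent.H257.BG.ua_root Pool.Agent.H257.BG.PRD.main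
      Pool.Agent.H257.BG.SNG.main Γ Λ v hv a k hk (Pool.Agent.H257.BG.ua_powers
      Pool.Agent.H257.BG.PRD.main Pool.Agent.H257.BG.SNG.main Γ Λ v (a ^ k) h c (cj ε w)
      ((inL_iff ε w).1 hw.1) (hwu w hw) (hc (a ^ k) h c w hw h1) h1)
    rw [hAa]
    refine h4.mono ?_
    rintro x ⟨b, hb, rfl⟩
    exact ⟨b, hb, (hve b).symm⟩

end Pool.Agent.Results.MP_0f6f3f_an.BoundedGeneration
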