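import Pool.Agent.H257.HD.Main2

/-!
# Property (T): group-like or exponentially decaying heights

Let `Γ₀` be a subgroup with property (T) of a group `Γ` such that every `g ≠ 1` in `Γ` has
infinitely many conjugates by elements of `Γ₀` (for instance `Γ₀ = Γ` icc with property (T)), and
let `S ∋ 1` be any finite generating set of `Γ₀`.  There is `r < 1`, not depending on `Λ` and `θ`,
such that for EVERY group `Λ` and EVERY trace preserving `*`-isomorphism `θ : L(Γ) → L(Λ)` one of
the following holds: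

* `θ` is group-like on `Γ₀`: `θ(u_g) = χ(g) w u_{φ(g)} w*` for all `g ∈ Γ₀`, for an injective
  homomorphism `φ : Γ₀ → Λ` (bijective if `Γ₀ = Γ`), a character `χ` of `Γ₀` and a unitary
  `w ∈ L(Λ)`;
* for all `n`, the mean over all products `g = s₁ ⋯ s_n`, `s_i ∈ S`, of `∑_h |θ(u_g)(h)|⁴` is at
  most `r ^ n`, where `θ(u_g)(h)`, `h ∈ Λ`, are the Fourier coefficients of the unitary `θ(u_g)`.

As `∑_h |θ(u_g)(h)|²  = 1`, the number `∑_h |θ(u_g)(h)|⁴` is between the fourth and the second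
power of the height `max_h |θ(u_g)(h)|` of `θ(u_g)`.  For a lattice `Γ = Γ₀` in a simple Lie group
`G₁` of real rank at least two and a lattice `Λ` in `G₂` the first case implies `G₁ ≅ G₂` (Mostow,
Margulis).

As usual `ℓ²(G)` is a Hilbert space `H` with an orthonormal basis `(δ_g)` indexed by `G`, and
`L(G)` is the commutant of the right translations, i.e. the algebra of the bounded operators `T`
for which `⟨δ_{tg}, T δ_{sg}⟩ = ⟨δ_t, T δ_s⟩`.

Proof.  `∑_h |θ(u_g)(h)|⁴` is a coefficient of a unitary representation of `Γ₀` on `ℓ²(Λ⁴ / Λ)`.  If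
it has no invariant vectors, property (T) gives the second case.  An invariant vector gives a
Hilbert–Schmidt operator on `ℓ²(Λ)` whose orbit under `Ad θ(u_g)`, `g ∈ Γ₀`, is uniformly
concentrated near the diagonal; a projection of minimal rank among such operators has a relatively
compact orbit modulo the right translations of `Λ`, which gives a unitary `w ∈ L(Λ)` with
`w* θ(u_g) w ∈ 𝕋 Λ` for all `g ∈ Γ₀`.

Plan, statements and assembly by helper257; leaves by helpers 59, 133, 170, 190, 199, 274, 284,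
287, 345, 353, 551, 591, 604, 800, 807 and 935.  The conversion lemmas are those of the library
result `LocalRigidity`.
-/

set_option autoImplicit false

namespace Pool.Agent.Results.MP_0f6f3f_an.HeightDecay

open Pool.Agent.H494R3.GT Pool.Agent.N557.QW

/-- every `g ≠ 1` in `G` has infinitely many conjugates `k g k⁻¹` with `k` in the subgroup `G₀`;
for `G₀ = G` this says that `G` is icc -/
def RelIcc {G : Type} [Group G] (G₀ : Subgroup G) : Prop :=
  ∀ g : G, g ≠ 1 → {x : G | ∃ k ∈ G₀, k * g * k⁻¹ = x}.Infinite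

/-- the bounded operators of a Hilbert space -/
abbrev Op (H : Type) [NormedAddCommGroup H] [InnerProductSpace ℂ H] : Type := H →L[ℂ] H

/-- `π` is a unitary representation of `G` on `H` -/
def IsURep {G H : Type} [Group G] [NormedAddCommGroup H] [InnerProductSpace ℂ H]
    (π : G → Op H) : Prop :=
  π 1 = 1 ∧ (∀ g h, π (g * h) = π g * π h) ∧ ∀ g v, ‖π g v‖ = ‖v‖

/-- Kazhdan's property (T): every unitary representation with almost invariant unit vectors has a
nonzero invariant vector -/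
def PropertyT (G : Type) [Group G] : Prop :=
  ∀ (H : Type) [NormedAddCommGroup H] [InnerProductSpace ℂ H] [CompleteSpace H]
    (π : G → Op H), IsURep π →
    (∀ (F : Finset G) (r : ℝ), 0 < r → ∃ v : H, ‖v‖ = 1 ∧ ∀ g ∈ F, ‖π g v - v‖ < r) →
    ∃ v : H, v ≠ 0 ∧ ∀ g, π g v = v

section
variable {G H : Type} [Group G] [NormedAddCommGroup H] [InnerProductSpace ℂ H]

/-- `T` belongs to the group von Neumann algebra `L(G)`: it commutes with the right
translations. -/
def InL (δ : HilbertBasis G ℂ H) (T : Op H) : Prop :=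
  ∀ g s t : G, inner ℂ (δ (t * g)) (T (δ (s * g))) = inner ℂ (δ t) (T (δ s))

/-- the Fourier coefficient of `T` at `g`; at `g = 1` this is the trace of `T ∈ L(G)` -/
noncomputable def coef (δ : HilbertBasis G ℂ H) (T : Op H) (g : G) : ℂ :=
  inner ℂ (δ g) (T (δ 1))

/-- `T` is the canonical unitary `u_g`, the left translation by `g` -/
def IsU (δ : HilbertBasis G ℂ H) (g : G) (T : Op H) : Prop := ∀ s, T (δ s) = δ (g * s)

end

section
variable {G G' H K : Type} [Group G] [Group G'] [NormedAddCommGroup H] [InnerProductSpace ℂ H]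
  [CompleteSpace H] [NormedAddCommGroup K] [InnerProductSpace ℂ K] [CompleteSpace K]
  (δ : HilbertBasis G ℂ H) (ε : HilbertBasis G' ℂ K) (θ : Op H → Op K)

/-- `θ` maps `L(G)` bijectively onto `L(G')` (values outside `L(G)` are irrelevant) -/
def Bij : Prop :=
  (∀ T, InL δ T → InL ε (θ T)) ∧ (∀ T, InL ε T → ∃ S, InL δ S ∧ θ S = T) ∧
    ∀ T S, InL δ T → InL δ S → θ T = θ S → T = S

omit [Group G'] [CompleteSpace H] [CompleteSpace K] in
/-- `θ` is additive on `L(G)` -/
def Add : Prop := ∀ T S, InL δ T → InL δ S → θ (T + S) = θ T + θ S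

omit [Group G'] [CompleteSpace H] [CompleteSpace K] in
/-- `θ` is homogeneous on `L(G)` -/
def Hom : Prop := ∀ (c : ℂ) (T : Op H), InL δ T → θ (c • T) = c • θ T

omit [Group G'] [CompleteSpace H] [CompleteSpace K] in
/-- `θ` is multiplicative on `L(G)` -/
def Mul : Prop := ∀ T S, InL δ T → InL δ S → θ (T * S) = θ T * θ S

omit [Group G'] in
/-- `θ` preserves adjoints on `L(G)` -/
def Sta : Prop := ∀ T, InL δ T → θ (star T) = star (θ T)

/-- `θ` is a `*`-isomorphism of `L(G)` onto `L(G')` which preserves the trace -/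
def IsTraceIso : Prop :=
  Bij δ ε θ ∧ Add δ θ ∧ Hom δ θ ∧ Mul δ θ ∧ Sta δ θ ∧
    ∀ T, InL δ T → coef ε (θ T) 1 = coef δ T 1

/-- `w` is a unitary of `L(G')` -/
def IsUnitary (w : Op K) : Prop := InL ε w ∧ star w * w = 1 ∧ w * star w = 1

/-- `θ` is group-like on the subgroup `G₀`: `θ(u_g) = χ(g) w u_{φ(g)} w*` for all `g ∈ G₀`, for an
injective homomorphism `φ : G₀ → G'`, a character `χ` of `G₀` and a unitary `w` of `L(G')`; if
`G₀ = G`, then `φ` is an isomorphism of groups -/
def IsGroupLikeOn (G₀ : Subgroup G) : Prop :=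
  ∃ (φ : G₀ →* G') (χ : G₀ →* ℂ) (w : Op K), Function.Injective φ ∧
    (G₀ = ⊤ → Function.Surjective φ) ∧ (∀ g, ‖χ g‖ = 1) ∧ IsUnitary ε w ∧
    ∀ (g : G₀) (T : Op H) (U : Op K), IsU δ (g : G) T → IsU ε (φ g) U →
      θ T = χ g • (w * U * star w)

end

lemma repr_dl {G H : Type} [NormedAddCommGroup H] [InnerProductSpace ℂ H]
    (δ : HilbertBasis G ℂ H) (g : G) : δ.repr (δ g) = dl g := by
  classical
  rw [HilbertBasis.repr_self, dl]

lemma repr_symm_dl {G H : Type} [NormedAddCommGroup H] [InnerProductSpace ℂ H]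
    (δ : HilbertBasis G ℂ H) (g : G) : δ.repr.symm (dl g) = δ g := by
  rw [← repr_dl δ, LinearIsometryEquiv.symm_apply_apply]

section
variable {G H : Type} [Group G] [NormedAddCommGroup H] [InnerProductSpace ℂ H]
  [CompleteSpace H]

/-- conjugation with `H ≃ ℓ²(G)` -/
noncomputable def cj (δ : HilbertBasis G ℂ H) : (H →L[ℂ] H) ≃⋆ₐ[ℂ] (L2 G →L[ℂ] L2 G) :=
  δ.repr.conjStarAlgEquiv

omit [Group G] in
lemma cj_star (δ : HilbertBasis G ℂ H) (T : H →L[ℂ] H) : cj δ (star T) = star (cj δ T) :=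
  (cj δ).map_star' T

omit [Group G] in
lemma cj_inner (δ : HilbertBasis G ℂ H) (T : H →L[ℂ] H) (s t : G) :
    inner ℂ (dl t) (cj δ T (dl s)) = inner ℂ (δ t) (T (δ s)) := by
  rw [cj, LinearIsometryEquiv.conjStarAlgEquiv_apply_apply, repr_symm_dl, ← repr_dl δ,
    LinearIsometryEquiv.inner_map_map]

lemma cf_cj (δ : HilbertBasis G ℂ H) (T : H →L[ℂ] H) (g : G) :
    cf (cj δ T) g = coef δ T g := cj_inner δ T 1 g

lemma inL_iff (δ : HilbertBasis G ℂ H) (T : H →L[ℂ] H) : InL δ T ↔ cj δ T ∈ LG G := by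
  rw [mem_LG_iff]
  constructor
  · intro h s t
    rw [cj_inner, cf_cj, coef]
    have := h s 1 (t * s⁻¹)
    rw [inv_mul_cancel_right, one_mul] at this
    exact this
  · intro h g s t
    rw [← cj_inner, ← cj_inner, h, h]
    congr 1
    group

lemma isU_iff (δ : HilbertBasis G ℂ H) (g : G) (T : H →L[ℂ] H) :
    IsU δ g T ↔ cj δ T = lam g := by
  constructor
  · intro h
    refine op_ext fun s => ?_
    rw [lam_dl, cj, LinearIsometryEquiv.conjStarAlgEquiv_apply_apply, repr_symm_dl, h s, repr_dl]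
  · intro h s
    have := congrArg (fun A : L2 G →L[ℂ] L2 G => A (dl s)) h
    simp only [lam_dl] at this
    rw [cj, LinearIsometryEquiv.conjStarAlgEquiv_apply_apply, repr_symm_dl, ← repr_dl δ] at this
    exact δ.repr.injective this

end

lemma hasT {G : Type} [Group G] (h : PropertyT G) : Pool.Agent.W661.RC.HasT G := by
  intro H _ _ _ π hπ
  refine h H (fun g => (π g : H →L[ℂ] H)) ⟨?_, ?_, ?_⟩ hπ
  · change ((π 1 : unitary (H →L[ℂ] H)) : H →L[ℂ] H) = 1
    rw [map_one]; rfl
  · intro g k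
    change ((π (g * k) : unitary (H →L[ℂ] H)) : H →L[ℂ] H) = _
    rw [map_mul]; rfl
  · intro g v
    exact Pool.Agent.N414.LR.Asm.norm_unit (π g) v

theorem result (Γ : Type) [Group Γ] (Γ₀ : Subgroup Γ) (hicc : RelIcc Γ₀) (hT : PropertyT Γ₀)
    (S : Finset Γ₀) (h1 : 1 ∈ S) (hS : Subgroup.closure (S : Set Γ₀) = ⊤) :
    ∃ r : ℝ, 0 ≤ r ∧ r < 1 ∧ ∀ (Λ H K : Type) [Group Λ] [NormedAddCommGroup H]
      [InnerProductSpace ℂ H] [CompleteSpace H] [NormedAddCommGroup K] [InnerProductSpace ℂ K]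
      [CompleteSpace K] (δ : HilbertBasis Γ ℂ H) (ε : HilbertBasis Λ ℂ K) (θ : Op H → Op K)
      (u : Γ → Op H), (∀ g, IsU δ g (u g)) → IsTraceIso δ ε θ →
      IsGroupLikeOn δ ε θ Γ₀ ∨
      ∀ n : ℕ, ∑ w ∈ Fintype.piFinset (fun _ : Fin n => S),
        ∑' h, ‖coef ε (θ (u ((List.ofFn w).prod : Γ₀))) h‖ ^ 4 ≤ (r * S.card) ^ n := by
  obtain ⟨r, hr0, hr1, h⟩ := Pool.Agent.H257.HD.main2 Γ Γ₀ hicc (hasT hT) S h1 hS
  refine ⟨r, hr0, hr1, ?_⟩
  intro Λ H K _ _ _ _ _ _ _ δ ε θ u hu ⟨⟨hmaps, honto, hinj⟩, hadd, hhom, hmul, hsta, htr⟩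
  have hin : ∀ x : (LG Γ).toStarSubalgebra, InL δ ((cj δ).symm x) := fun x => by
    rw [inL_iff, StarAlgEquiv.apply_symm_apply]; exact x.2
  let f : (LG Γ).toStarSubalgebra → (LG Λ).toStarSubalgebra := fun x =>
    ⟨cj ε (θ ((cj δ).symm x)), (inL_iff ε _).1 (hmaps _ (hin x))⟩
  have hbij : Function.Bijective f := by
    constructor
    · intro x y hxy
      have h1 := congrArg Subtype.val hxy
      have h2 := hinj _ _ (hin x) (hin y) ((cj ε).injective h1)
      exact Subtype.ext ((cj δ).symm.injective h2)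
    · intro y
      obtain ⟨T, hT, hTy⟩ := honto ((cj ε).symm y)
        (by rw [inL_iff, StarAlgEquiv.apply_symm_apply]; exact y.2)
      refine ⟨⟨cj δ T, (inL_iff δ T).1 hT⟩, Subtype.ext ?_⟩
      change cj ε (θ ((cj δ).symm (cj δ T))) = y
      rw [StarAlgEquiv.symm_apply_apply, hTy, StarAlgEquiv.apply_symm_apply]
  let e : (LG Γ).toStarSubalgebra ≃⋆ₐ[ℂ] (LG Λ).toStarSubalgebra :=
    { Equiv.ofBijective f hbij with
      map_mul' := fun x y => Subtype.ext (by
        change cj ε (θ ((cj δ).symm ((x : Pool.Agent.N414.LR.Op Γ) * y))) = _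
        rw [map_mul, hmul _ _ (hin x) (hin y), map_mul]; rfl)
      map_add' := fun x y => Subtype.ext (by
        change cj ε (θ ((cj δ).symm ((x : Pool.Agent.N414.LR.Op Γ) + y))) = _
        rw [map_add, hadd _ _ (hin x) (hin y), map_add]; rfl)
      map_smul' := fun c x => Subtype.ext (by
        change cj ε (θ ((cj δ).symm (c • (x : Pool.Agent.N414.LR.Op Γ)))) = _
        rw [map_smul, hhom c _ (hin x), map_smul]; rfl)
      map_star' := fun x => Subtype.ext (by
        change cj ε (θ ((cj δ).symm (star (x : Pool.Agent.N414.LR.Op Γ)))) = _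
        rw [map_star, hsta _ (hin x), cj_star]; rfl) }
  have he : ∀ x, (e x : L2 Λ →L[ℂ] L2 Λ) = cj ε (θ ((cj δ).symm x)) := fun _ => rfl
  obtain ⟨v, hve, hvL, hv0, hvd⟩ := Pool.Agent.N414.LR.END.t_den Γ Λ e (fun x => by
      rw [he, cf_cj, htr _ (hin x), ← cf_cj, StarAlgEquiv.apply_symm_apply])
  have huc : ∀ g, u g = (cj δ).symm (lam g) := fun g => by
    rw [← (isU_iff δ g (u g)).1 (hu g), StarAlgEquiv.symm_apply_apply]
  have hvu : ∀ g, (v g : L2 Λ →L[ℂ] L2 Λ) = cj ε (θ (u g)) := fun g => by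
    rw [hve g, he, huc g]
  rcases h Λ v hvL hv0 hvd with ⟨φ, χ, w, hφ, hφs, hw, huw, hg⟩ | hn
  · left
    refine ⟨φ, (Submonoid.subtype _).comp χ, (cj ε).symm w, hφ, hφs, ?_, ⟨?_, ?_, ?_⟩, ?_⟩
    · intro g
      exact CStarRing.norm_of_mem_unitary (χ g).2
    · rw [inL_iff, StarAlgEquiv.apply_symm_apply]; exact hw
    · rw [← map_star, ← map_mul, (Unitary.mem_iff.1 huw).1, map_one]
    · rw [← map_star, ← map_mul, (Unitary.mem_iff.1 huw).2, map_one]
    · intro g T U hT hU
      have h1 : T = (cj δ).symm (lam (g : Γ)) := by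
        rw [← (isU_iff δ (g : Γ) T).1 hT, StarAlgEquiv.symm_apply_apply]
      have h2 : cj ε (θ T) = ((χ g : unitary ℂ) : ℂ) • (w * lam (φ g) * star w) := by
        rw [h1, ← hg g, hve g, he]
      apply (cj ε).injective
      change cj ε (θ T) = cj ε (((χ g : unitary ℂ) : ℂ) • ((cj ε).symm w * U *
        star ((cj ε).symm w)))
      rw [h2, map_smul, map_mul, map_mul, cj_star, StarAlgEquiv.apply_symm_apply,
        (isU_iff ε _ U).1 hU]
  · right
    intro n
    refine le_of_eq_of_le (Finset.sum_congr rfl fun w _ => tsum_congr fun k => ?_) (hn n)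
    rw [hvu, cf_cj]

end Pool.Agent.Results.MP_0f6f3f_an.HeightDecay
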