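import Pool.Agent.H257.TY.Main
import Pool.Agent.H257.TY.PK4

/-!
# Kazhdan groups: the groups with the same von Neumann algebra are uniformly separated

Let `Γ` be an icc group with a Kazhdan pair `(S, κ)`, `1 ∈ S` (so `Γ` has property (T); every finite
generating set of a group with property (T) belongs to a Kazhdan pair), and
`r = (1 - κ² / |S|²)^(1/4) < 1`.  For a trace preserving `*`-isomorphism `θ : L(Γ) → L(Λ)` the
comultiplication `u_h ↦ u_h ⊗ u_h` of `Λ` becomes a `*`-homomorphism `Δ_θ` of `L(Γ)` to `L(Γ) ⊗ L(Γ)`; the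
Fourier coefficients of the unitary `Δ_θ(u_g)`, `g ∈ Γ`, are

`D_θ(g)(a, b) = ∑_h θ(u_g)(h) conj(θ(u_a)(h)) conj(θ(u_b)(h))`,  `a, b ∈ Γ`,

and `D_θ(g)` is a unit vector of `ℓ²(Γ × Γ)`.  For ALL groups `Λ₁`, `Λ₂` and all such isomorphisms
`θ₁ : L(Γ) → L(Λ₁)`, `θ₂ : L(Γ) → L(Λ₂)`:

1. either `θ₁` and `θ₂` are equivalent (`θ₂ θ₁⁻¹ (u_h) = χ(h) w u_{φ(h)} w*` for an isomorphism of groups
   `φ : Λ₁ → Λ₂`, a character `χ` and a unitary `w ∈ L(Λ₂)`), or for every `n` the sum over all products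
   `g = s₁ ⋯ s_n`, `s_i ∈ S`, of `|⟨D_θ₁(g), D_θ₂(g)⟩|²` is at most `(r² |S|)ⁿ`: the comultiplications of
   `Λ₁` and `Λ₂` are orthogonal up to `rⁿ` in square mean;
2. for `n ≥ 0` and every word `w = (s₁, …, s_n)` in `S` let `E(w)` be a finite subset of `Γ × Γ`.  If
   `(Λ_i, θ_i)`, `i ≤ N`, are pairwise inequivalent pairs, and for each of them the mass of
   `D_θ(s₁ ⋯ s_n)` outside `E(w)` is at most `η` in mean over the words `w ∈ Sⁿ`, and
   `d² = 2 - 2 rⁿ - 4 η > 0`, then `N ≤ (1 + 2 / d) ^ (2 ∑_w |E(w)|)`;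
3. in particular this holds if the groups `Λ_i` are pairwise not isomorphic.

Already for `n = 1` (with `η < (1 - r) / 2`), that is for the sizes of finite sets `E(s)`, `s ∈ S`, which
carry most of the mass of `D_θ(s)`, every pair `(Λ, θ)` satisfies the condition in 2 for some `E`, so
the number of the inequivalent pairs of given complexity `∑ |E(w)|` is finite, with an explicit
exponential bound which depends only on the Kazhdan pair.  For a lattice `Γ` in a simple Lie group of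
real rank at least two and lattices `Λ_i` in simple Lie groups `G_i` of the same kind, the groups
`Λ_i`, `Λ_j` are not isomorphic if `G_i` and `G_j` are not (Mostow, Margulis).

As usual `ℓ²(G)` is a Hilbert space `H` with an orthonormal basis `(δ_g)` indexed by `G`, and
`L(G)` is the commutant of the right translations, i.e. the algebra of the bounded operators `T`
for which `⟨δ_{tg}, T δ_{sg}⟩ = ⟨δ_t, T δ_s⟩`.

Proof.  `⟨D_θ₂(g), D_θ₁(g)⟩` is a coefficient of the unitary representation `ρ(g) ξ = Δ_θ₁(u_g) ξ Δ_θ₂(u_g)*` of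
`Γ` on `ℓ²(Γ × Γ)`, and the square of its absolute value is a coefficient of `ρ ⊗ conj ρ`.  If this
representation has no invariant vectors, the Kazhdan pair gives the second case.  Let `Z` be an
invariant vector, i.e. a Hilbert–Schmidt operator that commutes with `ρ(Γ)` (`ρ` has a finite
dimensional subrepresentation).  For an operator `Q` that commutes with the right action of
`Δ_θ₂(L(Γ))` one has `⟨Δ_θ₁(x) Z, Q Δ_θ₁(y) Z⟩ = ⟨Q Z, Δ_θ₁(y x*) Z⟩`, first for `x = u_g`, `y = u_h` and then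
for all `x, y ∈ L(Γ)` by von Neumann density, in particular `‖Q Δ_θ₁(x) Z‖ = ‖Q Z‖` for the unitaries
`x = θ₁⁻¹(u_h)`, for which `Δ_θ₁(x) = x ⊗ x`.  With the projections `Q` on the vectors supported near the
diagonal of `Λ₂ × Λ₂` this gives a Hilbert–Schmidt operator on `ℓ²(Λ₂)` whose orbit under
`Ad θ₂ θ₁⁻¹(u_h)` is uniformly concentrated near the diagonal, and the method of `HeightDecay` (this
problem) gives that `θ₂ θ₁⁻¹` is group-like.  2 is a packing argument for the vectors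
`(D_θ(w))_w` restricted to the sets `E(w)`.

Plan, statements and assembly by helper257; leaves by helpers 51, 139, 187, 200, 268, 339, 353, 370,
668, 864 and 922 (and those of project HD, see `HeightDecay`).  The conversion lemmas are those of
the library result `LocalRigidity`.
-/

set_option autoImplicit false

namespace Pool.Agent.Results.MP_0f6f3f_an.UniformSeparation

open Pool.Agent.H494R3.GT Pool.Agent.N557.QW

/-- `G` is icc: every `g ≠ 1` has infinitely many conjugates -/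
def Icc (G : Type) [Group G] : Prop := ∀ g : G, g ≠ 1 → {x : G | ∃ k : G, k * g * k⁻¹ = x}.Infinite

/-- the bounded operators of a Hilbert space -/
abbrev Op (H : Type) [NormedAddCommGroup H] [InnerProductSpace ℂ H] : Type := H →L[ℂ] H

/-- `π` is a unitary representation of `G` on `H` -/
def IsURep {G H : Type} [Group G] [NormedAddCommGroup H] [InnerProductSpace ℂ H]
    (π : G → Op H) : Prop :=
  π 1 = 1 ∧ (∀ g h, π (g * h) = π g * π h) ∧ ∀ g v, ‖π g v‖ = ‖v‖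

/-- `(S, κ)` is a Kazhdan pair: every unitary representation with a vector `v` such that
`‖π(s) v - v‖ < κ ‖v‖` for all `s ∈ S` has a nonzero invariant vector -/
def KazhdanPair (G : Type) [Group G] (S : Finset G) (κ : ℝ) : Prop :=
  ∀ (H : Type) [NormedAddCommGroup H] [InnerProductSpace ℂ H] [CompleteSpace H]
    (π : G → Op H), IsURep π → (∃ v : H, ∀ s ∈ S, ‖π s v - v‖ < κ * ‖v‖) →
    ∃ v : H, v ≠ 0 ∧ ∀ g, π g v = v

section
variable {G H : Type} [Group G] [NormedAddCommGroup H] [InnerProductSpace ℂ H]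

/-- `T` belongs to the group von Neumann algebra `L(G)`: it commutes with the right
translations. -/
def InL (δ : HilbertBasis G ℂ H) (T : Op H) : Prop :=
  ∀ g s t : G, inner ℂ (δ (t * g)) (T (δ (s * g))) = inner ℂ (δ t) (T (δ s))

/-- the Fourier coefficient of `T` at `g`; at `g = 1` this is the trace of `T ∈ L(G)` -/
noncomputable def coef (δ : HilbertBasis G ℂ H) (T : Op H) (g : G) : ℂ :=
  inner ℂ (δ g) (T (δ 1))

/-- `T` is the canonical unitary `u_g`, the left translation by `g` -/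
def IsU (δ : HilbertBasis G ℂ H) (g : G) (T : Op H) : Prop := ∀ s, T (δ s) = δ (g * s)

end

section
variable {G G' H K : Type} [Group G] [Group G'] [NormedAddCommGroup H] [InnerProductSpace ℂ H]
  [CompleteSpace H] [NormedAddCommGroup K] [InnerProductSpace ℂ K] [CompleteSpace K]
  (δ : HilbertBasis G ℂ H) (ε : HilbertBasis G' ℂ K) (θ : Op H → Op K)

/-- `θ` maps `L(G)` bijectively onto `L(G')` (values outside `L(G)` are irrelevant) -/
def Bij : Prop :=
  (∀ T, InL δ T → InL ε (θ T)) ∧ (∀ T, InL ε T → ∃ S, InL δ S ∧ θ S = T) ∧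
    ∀ T S, InL δ T → InL δ S → θ T = θ S → T = S

omit [Group G'] [CompleteSpace H] [CompleteSpace K] in
/-- `θ` is additive on `L(G)` -/
def Add : Prop := ∀ T S, InL δ T → InL δ S → θ (T + S) = θ T + θ S

omit [Group G'] [CompleteSpace H] [CompleteSpace K] in
/-- `θ` is homogeneous on `L(G)` -/
def Hom : Prop := ∀ (c : ℂ) (T : Op H), InL δ T → θ (c • T) = c • θ T

omit [Group G'] [CompleteSpace H] [CompleteSpace K] in
/-- `θ` is multiplicative on `L(G)` -/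
def Mul : Prop := ∀ T S, InL δ T → InL δ S → θ (T * S) = θ T * θ S

omit [Group G'] in
/-- `θ` preserves adjoints on `L(G)` -/
def Sta : Prop := ∀ T, InL δ T → θ (star T) = star (θ T)

/-- `θ` is a `*`-isomorphism of `L(G)` onto `L(G')` which preserves the trace -/
def IsTraceIso : Prop :=
  Bij δ ε θ ∧ Add δ θ ∧ Hom δ θ ∧ Mul δ θ ∧ Sta δ θ ∧
    ∀ T, InL δ T → coef ε (θ T) 1 = coef δ T 1

/-- `w` is a unitary of `L(G')` -/
def IsUnitary (w : Op K) : Prop := InL ε w ∧ star w * w = 1 ∧ w * star w = 1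

/-- the comultiplication of `G'`, seen in `L(G) ⊗ L(G)` by means of `θ`: the function
`(a, b) ↦ ∑_h θ(u_g)(h) conj(θ(u_a)(h) θ(u_b)(h))` on `G × G` -/
noncomputable def comult (u : G → Op H) (g : G) (p : G × G) : ℂ :=
  ∑' h, coef ε (θ (u g)) h * (starRingEnd ℂ) (coef ε (θ (u p.1)) h * coef ε (θ (u p.2)) h)

end

/-- the isomorphisms `θ₁ : L(G) → L(Λ₁)` and `θ₂ : L(G) → L(Λ₂)` are equivalent: if `θ₁(T) = u_h`, then
`θ₂(T) = χ(h) w u_{φ(h)} w*`, for an isomorphism of groups `φ : Λ₁ → Λ₂`, a character `χ` of `Λ₁` and a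
unitary `w` of `L(Λ₂)` -/
def Equivalent {G Λ₁ Λ₂ H K₁ K₂ : Type} [Group G] [Group Λ₁] [Group Λ₂] [NormedAddCommGroup H]
    [InnerProductSpace ℂ H] [CompleteSpace H] [NormedAddCommGroup K₁] [InnerProductSpace ℂ K₁]
    [CompleteSpace K₁] [NormedAddCommGroup K₂] [InnerProductSpace ℂ K₂] [CompleteSpace K₂]
    (δ : HilbertBasis G ℂ H) (ε₁ : HilbertBasis Λ₁ ℂ K₁) (ε₂ : HilbertBasis Λ₂ ℂ K₂)
    (θ₁ : Op H → Op K₁) (θ₂ : Op H → Op K₂) : Prop :=
  ∃ (φ : Λ₁ ≃* Λ₂) (χ : Λ₁ →* ℂ) (w : Op K₂), (∀ h, ‖χ h‖ = 1) ∧ IsUnitary ε₂ w ∧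
    ∀ (h : Λ₁) (T : Op H) (U : Op K₂), InL δ T → IsU ε₁ h (θ₁ T) → IsU ε₂ (φ h) U →
      θ₂ T = χ h • (w * U * star w)

lemma repr_dl {G H : Type} [NormedAddCommGroup H] [InnerProductSpace ℂ H]
    (δ : HilbertBasis G ℂ H) (g : G) : δ.repr (δ g) = dl g := by
  classical
  rw [HilbertBasis.repr_self, dl]

lemma repr_symm_dl {G H : Type} [NormedAddCommGroup H] [InnerProductSpace ℂ H]
    (δ : HilbertBasis G ℂ H) (g : G) : δ.repr.symm (dl g) = δ g := by
  rw [← repr_dl δ, LinearIsometryEquiv.symm_apply_apply]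

section
variable {G H : Type} [Group G] [NormedAddCommGroup H] [InnerProductSpace ℂ H]
  [CompleteSpace H]

/-- conjugation with `H ≃ ℓ²(G)` -/
noncomputable def cj (δ : HilbertBasis G ℂ H) : (H →L[ℂ] H) ≃⋆ₐ[ℂ] (L2 G →L[ℂ] L2 G) :=
  δ.repr.conjStarAlgEquiv

omit [Group G] in
lemma cj_star (δ : HilbertBasis G ℂ H) (T : H →L[ℂ] H) : cj δ (star T) = star (cj δ T) :=
  (cj δ).map_star' T

omit [Group G] in
lemma cj_inner (δ : HilbertBasis G ℂ H) (T : H →L[ℂ] H) (s t : G) :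
    inner ℂ (dl t) (cj δ T (dl s)) = inner ℂ (δ t) (T (δ s)) := by
  rw [cj, LinearIsometryEquiv.conjStarAlgEquiv_apply_apply, repr_symm_dl, ← repr_dl δ,
    LinearIsometryEquiv.inner_map_map]

lemma cf_cj (δ : HilbertBasis G ℂ H) (T : H →L[ℂ] H) (g : G) :
    cf (cj δ T) g = coef δ T g := cj_inner δ T 1 g

lemma inL_iff (δ : HilbertBasis G ℂ H) (T : H →L[ℂ] H) : InL δ T ↔ cj δ T ∈ LG G := by
  rw [mem_LG_iff]
  constructor
  · intro h s t
    rw [cj_inner, cf_cj, coef]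
    have := h s 1 (t * s⁻¹)
    rw [inv_mul_cancel_right, one_mul] at this
    exact this
  · intro h g s t
    rw [← cj_inner, ← cj_inner, h, h]
    congr 1
    group

lemma isU_iff (δ : HilbertBasis G ℂ H) (g : G) (T : H →L[ℂ] H) :
    IsU δ g T ↔ cj δ T = lam g := by
  constructor
  · intro h
    refine op_ext fun s => ?_
    rw [lam_dl, cj, LinearIsometryEquiv.conjStarAlgEquiv_apply_apply, repr_symm_dl, h s, repr_dl]
  · intro h s
    have := congrArg (fun A : L2 G →L[ℂ] L2 G => A (dl s)) h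
    simp only [lam_dl] at this
    rw [cj, LinearIsometryEquiv.conjStarAlgEquiv_apply_apply, repr_symm_dl, ← repr_dl δ] at this
    exact δ.repr.injective this

end

lemma avg {G : Type} [Group G] {S : Finset G} (h1 : 1 ∈ S) {κ r : ℝ} (hκ : 0 < κ)
    (hK : KazhdanPair G S κ) (hr : 1 - κ ^ 2 / (S.card : ℝ) ^ 2 ≤ r ^ 4) :
    Pool.Agent.H257.TY.Avg G S (r ^ 2) := by
  refine Pool.Agent.H257.TY.avg_of G S h1 κ (r ^ 2) hκ.le (sq_nonneg r)
    (by rw [← pow_mul]; exact hr) ?_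
  intro H _ _ _ π hni ξ
  by_contra hcon
  push Not at hcon
  obtain ⟨v, hv0, hv⟩ := hK H (fun g => (π g : H →L[ℂ] H)) ⟨by
      change ((π 1 : unitary (H →L[ℂ] H)) : H →L[ℂ] H) = 1
      rw [map_one]; rfl, by
      intro g k
      change ((π (g * k) : unitary (H →L[ℂ] H)) : H →L[ℂ] H) = _
      rw [map_mul]; rfl, by
      intro g v
      exact Pool.Agent.N414.LR.Asm.norm_unit (π g) v⟩ ⟨ξ, hcon⟩
  exact hv0 (hni v hv)

section conv
variable {Γ Λ H K : Type} [Group Γ] [Group Λ] [NormedAddCommGroup H] [InnerProductSpace ℂ H]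
  [CompleteSpace H] [NormedAddCommGroup K] [InnerProductSpace ℂ K] [CompleteSpace K]

/-- the isomorphism in the standard form -/
lemma conv (δ : HilbertBasis Γ ℂ H) (ε : HilbertBasis Λ ℂ K) (θ : Op H → Op K)
    (hθ : IsTraceIso δ ε θ) :
    ∃ e : (LG Γ).toStarSubalgebra ≃⋆ₐ[ℂ] (LG Λ).toStarSubalgebra,
      (∀ x, (e x : L2 Λ →L[ℂ] L2 Λ) = cj ε (θ ((cj δ).symm x))) ∧
      ∀ x, cf (e x : L2 Λ →L[ℂ] L2 Λ) 1 = cf (x : L2 Γ →L[ℂ] L2 Γ) 1 := by
  obtain ⟨⟨hmaps, honto, hinj⟩, hadd, hhom, hmul, hsta, htr⟩ := hθ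
  have hin : ∀ x : (LG Γ).toStarSubalgebra, InL δ ((cj δ).symm x) := fun x => by
    rw [inL_iff, StarAlgEquiv.apply_symm_apply]; exact x.2
  let f : (LG Γ).toStarSubalgebra → (LG Λ).toStarSubalgebra := fun x =>
    ⟨cj ε (θ ((cj δ).symm x)), (inL_iff ε _).1 (hmaps _ (hin x))⟩
  have hbij : Function.Bijective f := by
    constructor
    · intro x y hxy
      have h1 := congrArg Subtype.val hxy
      have h2 := hinj _ _ (hin x) (hin y) ((cj ε).injective h1)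
      exact Subtype.ext ((cj δ).symm.injective h2)
    · intro y
      obtain ⟨T, hT, hTy⟩ := honto ((cj ε).symm y)
        (by rw [inL_iff, StarAlgEquiv.apply_symm_apply]; exact y.2)
      refine ⟨⟨cj δ T, (inL_iff δ T).1 hT⟩, Subtype.ext ?_⟩
      change cj ε (θ ((cj δ).symm (cj δ T))) = y
      rw [StarAlgEquiv.symm_apply_apply, hTy, StarAlgEquiv.apply_symm_apply]
  let e : (LG Γ).toStarSubalgebra ≃⋆ₐ[ℂ] (LG Λ).toStarSubalgebra :=
    { Equiv.ofBijective f hbij with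
      map_mul' := fun x y => Subtype.ext (by
        change cj ε (θ ((cj δ).symm ((x : Pool.Agent.N414.LR.Op Γ) * y))) = _
        rw [map_mul, hmul _ _ (hin x) (hin y), map_mul]; rfl)
      map_add' := fun x y => Subtype.ext (by
        change cj ε (θ ((cj δ).symm ((x : Pool.Agent.N414.LR.Op Γ) + y))) = _
        rw [map_add, hadd _ _ (hin x) (hin y), map_add]; rfl)
      map_smul' := fun c x => Subtype.ext (by
        change cj ε (θ ((cj δ).symm (c • (x : Pool.Agent.N414.LR.Op Γ)))) = _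
        rw [map_smul, hhom c _ (hin x), map_smul]; rfl)
      map_star' := fun x => Subtype.ext (by
        change cj ε (θ ((cj δ).symm (star (x : Pool.Agent.N414.LR.Op Γ)))) = _
        rw [map_star, hsta _ (hin x), cj_star]; rfl) }
  have he : ∀ x, (e x : L2 Λ →L[ℂ] L2 Λ) = cj ε (θ ((cj δ).symm x)) := fun _ => rfl
  refine ⟨e, he, fun x => ?_⟩
  rw [he, cf_cj, htr _ (hin x), ← cf_cj, StarAlgEquiv.apply_symm_apply]

lemma u_eq {δ : HilbertBasis Γ ℂ H} {u : Γ → Op H} (hu : ∀ g, IsU δ g (u g)) (g : Γ) :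
    u g = (cj δ).symm (lam g) := by
  rw [← (isU_iff δ g (u g)).1 (hu g), StarAlgEquiv.symm_apply_apply]

lemma comult_eq {δ : HilbertBasis Γ ℂ H} {ε : HilbertBasis Λ ℂ K} {θ : Op H → Op K} {u : Γ → Op H}
    (hu : ∀ g, IsU δ g (u g)) {e : (LG Γ).toStarSubalgebra ≃⋆ₐ[ℂ] (LG Λ).toStarSubalgebra}
    (he : ∀ x, (e x : L2 Λ →L[ℂ] L2 Λ) = cj ε (θ ((cj δ).symm x))) (g : Γ) (p : Γ × Γ) :
    comult ε θ u g p = Pool.Agent.H257.TW.DD e g p := by
  have hc : ∀ (g : Γ) (h : Λ), coef ε (θ (u g)) h = cf (e ⟨lam g, lam_mem g⟩ : L2 Λ →L[ℂ] L2 Λ) h := by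
    intro g h
    rw [he, cf_cj, u_eq hu g]
  rw [comult, Pool.Agent.H257.TW.DD]
  refine tsum_congr fun h => ?_
  rw [hc, hc, hc, map_mul]

end conv

lemma equiv_of {Γ Λ₁ Λ₂ H K₁ K₂ : Type} [Group Γ] [Group Λ₁] [Group Λ₂] [NormedAddCommGroup H]
    [InnerProductSpace ℂ H] [CompleteSpace H] [NormedAddCommGroup K₁] [InnerProductSpace ℂ K₁]
    [CompleteSpace K₁] [NormedAddCommGroup K₂] [InnerProductSpace ℂ K₂] [CompleteSpace K₂]
    {δ : HilbertBasis Γ ℂ H} {ε₁ : HilbertBasis Λ₁ ℂ K₁} {ε₂ : HilbertBasis Λ₂ ℂ K₂}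
    {θ₁ : Op H → Op K₁} {θ₂ : Op H → Op K₂}
    {e₁ : (LG Γ).toStarSubalgebra ≃⋆ₐ[ℂ] (LG Λ₁).toStarSubalgebra}
    {e₂ : (LG Γ).toStarSubalgebra ≃⋆ₐ[ℂ] (LG Λ₂).toStarSubalgebra}
    (he₁ : ∀ x, (e₁ x : L2 Λ₁ →L[ℂ] L2 Λ₁) = cj ε₁ (θ₁ ((cj δ).symm x)))
    (he₂ : ∀ x, (e₂ x : L2 Λ₂ →L[ℂ] L2 Λ₂) = cj ε₂ (θ₂ ((cj δ).symm x)))
    (h : Pool.Agent.H257.TW.GpL (e₁.symm.trans e₂)) : Equivalent δ ε₁ ε₂ θ₁ θ₂ := by
  obtain ⟨f, χ, w, hw, huw, hg⟩ := h
  refine ⟨f, (Submonoid.subtype _).comp χ, (cj ε₂).symm w, ?_, ⟨?_, ?_, ?_⟩, ?_⟩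
  · intro g
    exact CStarRing.norm_of_mem_unitary (χ g).2
  · rw [inL_iff, StarAlgEquiv.apply_symm_apply]; exact hw
  · rw [← map_star, ← map_mul, (Unitary.mem_iff.1 huw).1, map_one]
  · rw [← map_star, ← map_mul, (Unitary.mem_iff.1 huw).2, map_one]
  · intro k T U hT hk hU
    set x : (LG Γ).toStarSubalgebra := ⟨cj δ T, (inL_iff δ T).1 hT⟩ with hx
    have hxs : (cj δ).symm (x : L2 Γ →L[ℂ] L2 Γ) = T := StarAlgEquiv.symm_apply_apply _ _
    have h1 : e₁ x = ⟨lam k, lam_mem k⟩ := by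
      apply Subtype.ext
      rw [he₁, hxs]
      exact (isU_iff ε₁ k _).1 hk
    have h2 : x = e₁.symm ⟨lam k, lam_mem k⟩ := by
      rw [← h1, StarAlgEquiv.symm_apply_apply]
    have h3 : cj ε₂ (θ₂ T) = ((χ k : unitary ℂ) : ℂ) • (w * lam (f k) * star w) := by
      rw [← hg k]
      change _ = (e₂ (e₁.symm ⟨lam k, lam_mem k⟩) : L2 Λ₂ →L[ℂ] L2 Λ₂)
      rw [← h2, he₂, hxs]
    apply (cj ε₂).injective
    change cj ε₂ (θ₂ T) = cj ε₂ (((χ k : unitary ℂ) : ℂ) • ((cj ε₂).symm w * U *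
      star ((cj ε₂).symm w)))
    rw [h3, map_smul, map_mul, map_mul, cj_star, StarAlgEquiv.apply_symm_apply,
      (isU_iff ε₂ _ U).1 hU]

theorem result (Γ : Type) [Group Γ] (hicc : Icc Γ) (S : Finset Γ) (h1 : 1 ∈ S) (κ r : ℝ)
    (hκ : 0 < κ) (hK : KazhdanPair Γ S κ) (hr0 : 0 ≤ r)
    (hr : 1 - κ ^ 2 / (S.card : ℝ) ^ 2 ≤ r ^ 4) :
    (∀ (Λ H K : Type) [Group Λ] [NormedAddCommGroup H] [InnerProductSpace ℂ H] [CompleteSpace H]
      [NormedAddCommGroup K] [InnerProductSpace ℂ K] [CompleteSpace K] (δ : HilbertBasis Γ ℂ H)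
      (ε : HilbertBasis Λ ℂ K) (θ : Op H → Op K) (u : Γ → Op H), (∀ g, IsU δ g (u g)) →
      IsTraceIso δ ε θ → ∀ g, HasSum (fun p => ‖comult ε θ u g p‖ ^ 2) 1) ∧
    (∀ (Λ₁ Λ₂ H K₁ K₂ : Type) [Group Λ₁] [Group Λ₂] [NormedAddCommGroup H]
      [InnerProductSpace ℂ H] [CompleteSpace H] [NormedAddCommGroup K₁] [InnerProductSpace ℂ K₁]
      [CompleteSpace K₁] [NormedAddCommGroup K₂] [InnerProductSpace ℂ K₂] [CompleteSpace K₂]
      (δ : HilbertBasis Γ ℂ H) (ε₁ : HilbertBasis Λ₁ ℂ K₁) (ε₂ : HilbertBasis Λ₂ ℂ K₂)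
      (θ₁ : Op H → Op K₁) (θ₂ : Op H → Op K₂) (u : Γ → Op H), (∀ g, IsU δ g (u g)) →
      IsTraceIso δ ε₁ θ₁ → IsTraceIso δ ε₂ θ₂ →
      Equivalent δ ε₁ ε₂ θ₁ θ₂ ∨
      ∀ n : ℕ, ∑ w ∈ Fintype.piFinset (fun _ : Fin n => S),
        ‖∑' p, (starRingEnd ℂ) (comult ε₁ θ₁ u (List.ofFn w).prod p) *
          comult ε₂ θ₂ u (List.ofFn w).prod p‖ ^ 2 ≤ (r ^ 2 * S.card) ^ n) ∧
    ∀ (n N : ℕ) (E : (Fin n → Γ) → Finset (Γ × Γ)) (η : ℝ) (H : Type) [NormedAddCommGroup H]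
      [InnerProductSpace ℂ H] [CompleteSpace H] (δ : HilbertBasis Γ ℂ H) (u : Γ → Op H)
      (Λ K : Fin N → Type)
      [∀ i, Group (Λ i)] [∀ i, NormedAddCommGroup (K i)] [∀ i, InnerProductSpace ℂ (K i)]
      [∀ i, CompleteSpace (K i)] (ε : ∀ i, HilbertBasis (Λ i) ℂ (K i)) (θ : ∀ i, Op H → Op (K i)),
      0 < 2 - 2 * r ^ n - 4 * η → (∀ g, IsU δ g (u g)) → (∀ i, IsTraceIso δ (ε i) (θ i)) →
      (∀ i, ∑ w ∈ Fintype.piFinset (fun _ : Fin n => S),
        (1 - ∑ p ∈ E w, ‖comult (ε i) (θ i) u (List.ofFn w).prod p‖ ^ 2) ≤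
          η * (S.card : ℝ) ^ n) →
      ((∀ i j, i ≠ j → ¬ Equivalent δ (ε i) (ε j) (θ i) (θ j)) →
        (N : ℝ) ≤ (1 + 2 / √(2 - 2 * r ^ n - 4 * η)) ^
          (2 * ∑ w ∈ Fintype.piFinset (fun _ : Fin n => S), (E w).card)) ∧
      ((∀ i j, i ≠ j → IsEmpty (Λ i ≃* Λ j)) →
        (N : ℝ) ≤ (1 + 2 / √(2 - 2 * r ^ n - 4 * η)) ^
          (2 * ∑ w ∈ Fintype.piFinset (fun _ : Fin n => S), (E w).card)) := by
  classical
  have hicc' : Pool.Agent.N414.LR.IsIcc Γ := hicc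
  refine ⟨?_, ?_⟩
  · intro Λ H K _ _ _ _ _ _ _ δ ε θ u hu hθ g
    obtain ⟨e, he, het⟩ := conv δ ε θ hθ
    simp only [comult_eq hu he]
    exact Pool.Agent.H257.TW.RP.ddn Pool.Agent.H257.TW.TVV.main Pool.Agent.H257.TW.IU.main
      Γ Λ e het g
  have key : ∀ (Λ₁ Λ₂ H K₁ K₂ : Type) [Group Λ₁] [Group Λ₂] [NormedAddCommGroup H]
      [InnerProductSpace ℂ H] [CompleteSpace H] [NormedAddCommGroup K₁] [InnerProductSpace ℂ K₁]
      [CompleteSpace K₁] [NormedAddCommGroup K₂] [InnerProductSpace ℂ K₂] [CompleteSpace K₂]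
      (δ : HilbertBasis Γ ℂ H) (ε₁ : HilbertBasis Λ₁ ℂ K₁) (ε₂ : HilbertBasis Λ₂ ℂ K₂)
      (θ₁ : Op H → Op K₁) (θ₂ : Op H → Op K₂) (u : Γ → Op H), (∀ g, IsU δ g (u g)) →
      IsTraceIso δ ε₁ θ₁ → IsTraceIso δ ε₂ θ₂ →
      Equivalent δ ε₁ ε₂ θ₁ θ₂ ∨
      ∀ n : ℕ, ∑ w ∈ Fintype.piFinset (fun _ : Fin n => S),
        ‖∑' p, (starRingEnd ℂ) (comult ε₁ θ₁ u (List.ofFn w).prod p) *
          comult ε₂ θ₂ u (List.ofFn w).prod p‖ ^ 2 ≤ (r ^ 2 * S.card) ^ n := by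
    intro Λ₁ Λ₂ H K₁ K₂ _ _ _ _ _ _ _ _ _ _ _ δ ε₁ ε₂ θ₁ θ₂ u hu hθ₁ hθ₂
    obtain ⟨e₁, he₁, het₁⟩ := conv δ ε₁ θ₁ hθ₁
    obtain ⟨e₂, he₂, het₂⟩ := conv δ ε₂ θ₂ hθ₂
    rcases Pool.Agent.H257.TY.dich Γ hicc' S (r ^ 2) (sq_nonneg r) (avg h1 hκ hK hr) Λ₁ Λ₂ e₁ e₂
      het₁ het₂ with h | h
    · exact Or.inl (equiv_of he₁ he₂ h)
    · right
      simp only [comult_eq hu he₁, comult_eq hu he₂]
      exact h
  refine ⟨key, ?_⟩
  intro n N E η H _ _ _ δ u Λ K _ _ _ _ ε θ hd hu hθ hE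
  have main : (∀ i j, i ≠ j → ¬ Equivalent δ (ε i) (ε j) (θ i) (θ j)) →
        (N : ℝ) ≤ (1 + 2 / √(2 - 2 * r ^ n - 4 * η)) ^
          (2 * ∑ w ∈ Fintype.piFinset (fun _ : Fin n => S), (E w).card) := by
    intro hne
    choose e he het using fun i => conv δ (ε i) (θ i) (hθ i)
    set s : Finset (Fin n → Γ) := Fintype.piFinset (fun _ : Fin n => S) with hs
    have hcard : s.card = S.card ^ n := by
      rw [hs, Fintype.card_piFinset]
      simp
    have hS0 : 0 < S.card := Finset.card_pos.2 ⟨1, h1⟩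
    have hm : 0 < s.card := by rw [hcard]; positivity
    have hsum : ∀ F : (Fin n → Γ) → ℝ, ∑ j : Fin s.card, F ((s.equivFin.symm j : s) : Fin n → Γ) =
        ∑ w ∈ s, F w := by
      intro F
      rw [Equiv.sum_comp s.equivFin.symm (fun w : s => F w), Finset.sum_coe_sort]
    have hcE : ∑ w ∈ s, (E w).card =
        ∑ j : Fin s.card, (E ((s.equivFin.symm j : s) : Fin n → Γ)).card := by
      rw [Equiv.sum_comp s.equivFin.symm (fun w : s => (E w).card),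
        Finset.sum_coe_sort s (fun w => (E w).card)]
    rw [hcE]
    refine Pool.Agent.H257.TY.PK4.main (Γ × Γ) N s.card
      (fun j => E ((s.equivFin.symm j : s) : Fin n → Γ))
      (fun i j p => comult (ε i) (θ i) u (List.ofFn ((s.equivFin.symm j : s) : Fin n → Γ)).prod p)
      (r ^ n) η hm (pow_nonneg hr0 n) hd
      (fun i j => by
        simp only [comult_eq hu (he i)]
        exact Pool.Agent.H257.TW.RP.ddn Pool.Agent.H257.TW.TVV.main Pool.Agent.H257.TW.IU.main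
          Γ (Λ i) (e i) (het i) _)
      (fun i i' hii => by
        rcases key (Λ i) (Λ i') H (K i) (K i') δ (ε i) (ε i') (θ i) (θ i') u hu (hθ i) (hθ i') with
          h | h
        · exact absurd h (hne i i' hii)
        · rw [hsum (fun w => ‖∑' p, (starRingEnd ℂ) (comult (ε i) (θ i) u (List.ofFn w).prod p) *
            comult (ε i') (θ i') u (List.ofFn w).prod p‖ ^ 2)]
          refine (h n).trans (le_of_eq ?_)
          rw [hcard, Nat.cast_pow]
          ring)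
      (fun i => by
        rw [hsum (fun w => 1 - ∑ p ∈ E w, ‖comult (ε i) (θ i) u (List.ofFn w).prod p‖ ^ 2), hcard,
          Nat.cast_pow]
        exact hE i)
  refine ⟨main, fun hiso => main fun i j hij heq => ?_⟩
  obtain ⟨φ, -⟩ := heq
  exact (hiso i j hij).false φ

end Pool.Agent.Results.MP_0f6f3f_an.UniformSeparation
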